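import Pool.Agent.Helper13.FR.Stmts
import Pool.Agent.Helper63.MD.PRA

open Finset Filter
open scoped ComplexConjugate

namespace Pool.Agent.Helper13.FR

open Pool.Agent.Helper16.MD

theorem st_PRI (KAT : ST_KAT) (WND : ST_WND) (SHF : ST_SHF) (EXV : ST_EXV) (FOU : ST_FOU)
    (RIC : ST_RIC) (AUT : ST_AUT) (NUS : ST_NUS) (CNC : ST_CNC) (NCP : ST_NCP)
    (PAR : ST_PAR) : ST_PRI := by
  intro η hη hη1
  obtain ⟨K, hK, hW⟩ := WND (64 / η ^ 2)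
  obtain ⟨e, he⟩ : ∃ e : ℝ, e = (η / 32) ^ 2 := ⟨_, rfl⟩
  have he0 : 0 < e := by rw [he]; positivity
  have he1 : e ≤ 1 := by
    rw [he]
    exact pow_le_one₀ (by positivity) (by linarith)
  obtain ⟨c2, hc2⟩ : ∃ c2 : ℝ, c2 = e ^ 2 / 32 := ⟨_, rfl⟩
  have hc20 : 0 < c2 := by rw [hc2]; positivity
  obtain ⟨κ, hκ⟩ : ∃ κ : ℝ, κ = e ^ 2 / 4 := ⟨_, rfl⟩
  have hκ0 : 0 < κ := by rw [hκ]; positivity
  have hκ1 : κ ≤ 1 := by
    rw [hκ]
    have := pow_le_one₀ (n := 2) he0.le he1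
    linarith
  obtain ⟨T, hT⟩ : ∃ T : ℕ, T = ⌈16 / e ^ 2⌉₊ := ⟨_, rfl⟩
  have hTle : 16 / e ^ 2 ≤ T := by rw [hT]; exact Nat.le_ceil _
  have hT0 : (0 : ℝ) < T := lt_of_lt_of_le (by positivity) hTle
  have hT1 : 1 ≤ T := by exact_mod_cast hT0
  have hρT : 2 * (e ^ 2 / 16) + 2 / T ≤ κ := by
    have h1 : 2 / (T : ℝ) ≤ e ^ 2 / 8 := by
      rw [div_le_iff₀ hT0]
      have h2 : e ^ 2 / 8 * (16 / e ^ 2) ≤ e ^ 2 / 8 * T :=
        mul_le_mul_of_nonneg_left hTle (by positivity)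
      have h3 : e ^ 2 / 8 * (16 / e ^ 2) = 2 := by
        field_simp
        norm_num
      linarith
    rw [hκ]
    linarith
  obtain ⟨C', hC'⟩ : ∃ C' : ℝ, C' = max 1 (2 / (c2 * Real.sqrt κ)) := ⟨_, rfl⟩
  have hC'1 : 1 ≤ C' := by rw [hC']; exact le_max_left _ _
  have hC'2 : 2 / (c2 * Real.sqrt κ) ≤ C' := by rw [hC']; exact le_max_right _ _
  have hsκ : 0 < Real.sqrt κ := Real.sqrt_pos.2 hκ0
  refine ⟨κ / (2 * (2 * C' + 1)), by positivity, ?_⟩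
  obtain ⟨n₀, I₀, hn₀, hR⟩ := RIC (e ^ 2 / 16) (800 * K ^ 2) T (by positivity) hT1
  refine ⟨n₀, fun n hn => ?_⟩
  obtain ⟨C, hC⟩ : ∃ C : ℝ, C = max (24 / η) (max (2 / c2) (max (16 * C' + 1)
    (4 * (72 / κ + 2)))) := ⟨_, rfl⟩
  have hCa : 24 / η ≤ C := by rw [hC]; exact le_max_left _ _
  have hCb : 2 / c2 ≤ C := by
    rw [hC]; exact (le_max_left _ _).trans (le_max_right _ _)
  have hCc : 16 * C' + 1 ≤ C := by
    rw [hC]; exact (le_max_left _ _).trans ((le_max_right _ _).trans (le_max_right _ _))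
  have hCd : 4 * (72 / κ + 2) ≤ C := by
    rw [hC]; exact (le_max_right _ _).trans ((le_max_right _ _).trans (le_max_right _ _))
  obtain ⟨Λ₀, hΛ₀, hPA⟩ := PAR K I₀ n C hK (hn₀.trans hn)
  refine ⟨Λ₀, fun Λ a φ G ω hΛ hb hφ hG hfreq => ?_⟩
  obtain ⟨I, hI₀, hI1, hD2, hP⟩ := hPA Λ hΛ
  have hΛ1 : 1 ≤ Λ := hΛ₀.trans hΛ
  have hn1 : 1 ≤ n := hn₀.trans hn
  have hD1 : 1 ≤ n * Λ := Nat.mul_pos hn1 hΛ1
  have hKI : I < K * I := lt_of_lt_of_le (by omega) (Nat.mul_le_mul_right I hK)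
  have h11 : I ≤ 11 * K * I := Nat.le_mul_of_pos_left I (by omega)
  have hKI' : 11 * K * I < K * (11 * K * I) :=
    lt_of_lt_of_le (by omega) (Nat.mul_le_mul_right (11 * K * I) hK)
  have hW1 := hW I (n * Λ) hI1 hD1 hD2
  have hW2 := hW (11 * K * I) (n * Λ) (hI1.trans h11) hD1
    (hD2.trans (Nat.pow_le_pow_right (by norm_num) (Nat.pow_le_pow_right (by norm_num) h11)))
  have memR : ∀ (J i : ℕ), i ∈ RW (n * Λ) J K → J ≤ i ∧ i < K * J ∧ Rich (n * Λ) i := by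
    intro J i hi
    unfold RW at hi
    rw [Finset.mem_filter, Finset.mem_Ico] at hi
    exact ⟨hi.1.1, hi.1.2, hi.2⟩
  have hf : ∀ x, ‖FF n Λ a φ G ω x‖ ≤ 1 := by
    intro x
    unfold FF
    rw [norm_mul, norm_mul]
    exact mul_le_one₀ (mul_le_one₀ (hb _).1 (norm_nonneg _) (hb _).2.1) (norm_nonneg _)
      (hb _).2.2
  obtain ⟨i, hi, j, hj, k, hk, hΓ⟩ := KAT η (n * Λ) (RW (n * Λ) I K) (RW (n * Λ) I K)
    (RW (n * Λ) (11 * K * I) K) (FF n Λ a φ G ω) hη hD1 hf (by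
      intro i hi
      rw [Finset.mem_union, Finset.mem_union] at hi
      rcases hi with (hi | hi) | hi
      · obtain ⟨h1, h2, _⟩ := memR _ _ hi
        exact hCa.trans (hP i i (11 * K * I) h1 h2 h1 h2 le_rfl hKI').2.2.2.2.2.2.2.2.2.1
      · obtain ⟨h1, h2, _⟩ := memR _ _ hi
        exact hCa.trans (hP i i (11 * K * I) h1 h2 h1 h2 le_rfl hKI').2.2.2.2.2.2.2.2.2.1
      · obtain ⟨h1, h2, _⟩ := memR _ _ hi
        exact hCa.trans (hP I I i le_rfl hKI le_rfl hKI h1 h2).2.2.2.2.2.2.2.2.2.2.2)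
    hW1 hW1 hW2 hfreq
  obtain ⟨i1, i2, i3⟩ := memR _ _ hi
  obtain ⟨j1, j2, j3⟩ := memR _ _ hj
  obtain ⟨k1, k2, k3⟩ := memR _ _ hk
  obtain ⟨p1, p2, p3, p4, p5, p6, p7, p8, p9, p10, p11, p12⟩ := hP i j k i1 i2 j1 j2 k1 k2
  have hpar : Par (800 * K ^ 2) n Λ i j k := ⟨p1, p2, p3, p4, p5, i3, j3, k3⟩
  have hric := hR n Λ i j k hn hΛ1 (hI₀.trans i1) (hI₀.trans j1) hpar
  obtain ⟨R, hRdef⟩ : ∃ R : ℕ, R = 2 ^ (i + j + k) := ⟨_, rfl⟩
  have hR1 : 1 ≤ R := by rw [hRdef]; exact Nat.one_le_two_pow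
  have hR1' : (1 : ℝ) ≤ R := by exact_mod_cast hR1
  have hR0 : (0 : ℝ) < R := by linarith
  have hΛ0 : (0 : ℝ) < Λ := by exact_mod_cast hΛ1
  have p6' : C * (R : ℝ) ^ 2 < Λ := by
    have h1 : (R : ℝ) = (2 : ℝ) ^ (i + j + k) := by rw [hRdef]; push_cast; ring
    rw [h1]
    exact p6
  have hC0 : 0 < C := lt_of_lt_of_le (by positivity) hCa
  have hx2 : 2 ≤ c2 * Λ / R := by
    rw [le_div_iff₀ hR0]
    have h1 : 2 ≤ c2 * C := by
      have h2 : c2 * (2 / c2) ≤ c2 * C := mul_le_mul_of_nonneg_left hCb hc20.le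
      have h3 : c2 * (2 / c2) = 2 := by field_simp
      linarith
    have h4 : c2 * (C * (R : ℝ) ^ 2) ≤ c2 * Λ := mul_le_mul_of_nonneg_left p6'.le hc20.le
    have h5 : 2 * (R : ℝ) ≤ c2 * C * (R : ℝ) ^ 2 := by
      have h6 : (R : ℝ) ≤ (R : ℝ) ^ 2 := by
        rw [sq]
        exact le_mul_of_one_le_left hR0.le hR1'
      exact mul_le_mul h1 h6 hR0.le (by positivity)
    calc 2 * (R : ℝ) ≤ c2 * C * (R : ℝ) ^ 2 := h5
      _ = c2 * (C * (R : ℝ) ^ 2) := by ring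
      _ ≤ c2 * Λ := h4
  obtain ⟨H, hHdef⟩ : ∃ H : ℕ, H = ⌊c2 * Λ / R⌋₊ := ⟨_, rfl⟩
  have hHle : (H : ℝ) ≤ c2 * Λ / R := by
    rw [hHdef]
    exact Nat.floor_le (by positivity)
  have hHlt : c2 * Λ / R < H + 1 := by
    rw [hHdef]
    exact Nat.lt_floor_add_one _
  have hH1' : (1 : ℝ) < (H : ℝ) := by linarith
  have hH1 : 1 ≤ H := by
    have : (1 : ℝ) ≤ (H : ℝ) := hH1'.le
    exact_mod_cast this
  have hKk := hΓ (fun P P' => Real.sqrt (VV n Λ a H P P' G + ((P : ℝ) + P') * H / Λ))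
    (fun P P' h1 h2 h3 h4 => pra_gam SHF n Λ a H φ G ω hn1 hΛ1 hH1 hb hφ hG P P' h1 h2 h3 h4)
  -- many primes
  have hcard : ∀ i : ℕ, 1 ≤ i → Rich (n * Λ) i → C * i ≤ 2 ^ i →
      ⌈72 / κ⌉₊ ≤ (PB (n * Λ) i).card := by
    intro i hi1 hri hCi
    unfold Rich at hri
    have hi0 : (0 : ℝ) < i := by exact_mod_cast hi1
    have h1 : C * i ≤ 4 * i * ((PB (n * Λ) i).card : ℝ) := by
      refine hCi.trans ?_
      exact_mod_cast hri
    have h2 : C ≤ 4 * ((PB (n * Λ) i).card : ℝ) := by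
      refine le_of_mul_le_mul_right ?_ hi0
      calc C * i ≤ 4 * i * ((PB (n * Λ) i).card : ℝ) := h1
        _ = 4 * ((PB (n * Λ) i).card : ℝ) * i := by ring
    have h3 : 72 / κ ≤ ((PB (n * Λ) i).card : ℝ) := by linarith
    exact Nat.ceil_le.2 h3
  have hmi := hcard i (hI1.trans i1) i3 p7
  have hmj := hcard j (hI1.trans j1) j3 p8
  have hmk := hcard k ((hI1.trans h11).trans k1) k3 p9
  have hmpos : 0 < ⌈72 / κ⌉₊ := Nat.ceil_pos.2 (by positivity)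
  have hBne : (Bk (n * Λ) i j k).Nonempty := by
    unfold Bk
    exact Finset.Nonempty.product (Finset.card_pos.1 (lt_of_lt_of_le hmpos hmi))
      (Finset.Nonempty.product (Finset.card_pos.1 (lt_of_lt_of_le hmpos hmj))
        (Finset.card_pos.1 (lt_of_lt_of_le hmpos hmk)))
  have hV := pra_vv n Λ a H G (Bk (n * Λ) i j k) R e hΛ1 hBne he0 hR0
    (fun s hs => by
      have h1 := (pra_pr hs).2.1
      rw [← hRdef] at h1
      exact_mod_cast h1)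
    (by rw [← hc2]; exact hHle) (by rw [he]; exact hKk)
  have hFo := pra_fou EXV FOU AUT n Λ T a H G (Bk (n * Λ) i j k) (e ^ 2 / 16) κ hn1 hΛ1 hT1 hH1
    (by positivity) (fun s hs => (pra_pr hs).2.2) (fun x => (hb x).2.1) hG hric hρT hBne
    (by
      refine le_trans (le_of_eq ?_) hV
      rw [hκ]
      ring)
  obtain ⟨ξ, hξ, hν⟩ := CNC Λ R H κ C' (Bk (n * Λ) i j k) (nu Λ G) hΛ1 hR1 hH1 hκ0 hκ1 hC'1 hBne
    (fun s hs => by
      obtain ⟨h1, h2, h3⟩ := pra_pr hs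
      rw [← hRdef] at h1 h2
      exact ⟨h1, h2, Nat.Coprime.coprime_mul_left_right h3⟩)
    (fun s hs => by
      have h1 := NCP (n * Λ) i j k ⌈72 / κ⌉₊ s hs hmi hmj hmk
      have h2 : ((⌈72 / κ⌉₊ : ℕ) : ℝ) *
          (((Bk (n * Λ) i j k).filter fun t => ¬ (pr s).Coprime (pr t)).card : ℝ) ≤
          9 * ((Bk (n * Λ) i j k).card : ℝ) := by exact_mod_cast h1
      have h3 : 72 / κ ≤ ((⌈72 / κ⌉₊ : ℕ) : ℝ) := Nat.le_ceil _
      have h4 : 72 / κ * (((Bk (n * Λ) i j k).filter fun t => ¬ (pr s).Coprime (pr t)).card : ℝ) ≤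
          9 * ((Bk (n * Λ) i j k).card : ℝ) :=
        (mul_le_mul_of_nonneg_right h3 (Nat.cast_nonneg _)).trans h2
      have h5 : κ * (72 / κ * (((Bk (n * Λ) i j k).filter
          fun t => ¬ (pr s).Coprime (pr t)).card : ℝ)) ≤
          κ * (9 * ((Bk (n * Λ) i j k).card : ℝ)) := mul_le_mul_of_nonneg_left h4 hκ0.le
      have h6 : κ * (72 / κ * (((Bk (n * Λ) i j k).filter
          fun t => ¬ (pr s).Coprime (pr t)).card : ℝ)) =
          72 * (((Bk (n * Λ) i j k).filter fun t => ¬ (pr s).Coprime (pr t)).card : ℝ) := by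
        field_simp
      linarith)
    (by
      have h1 : c2 * Λ / R / 2 ≤ H := by linarith
      have h2 : 2 / c2 ≤ C' * Real.sqrt κ := by
        have h3 : 2 / (c2 * Real.sqrt κ) * Real.sqrt κ ≤ C' * Real.sqrt κ :=
          mul_le_mul_of_nonneg_right hC'2 hsκ.le
        have h4 : 2 / (c2 * Real.sqrt κ) * Real.sqrt κ = 2 / c2 := by
          field_simp
        linarith
      calc (Λ : ℝ) = 2 / c2 * (c2 * Λ / R / 2) * R := by field_simp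
        _ ≤ C' * Real.sqrt κ * H * R :=
          mul_le_mul_of_nonneg_right (mul_le_mul h2 h1 (by positivity) (by positivity)) hR0.le)
    (by
      refine lt_of_le_of_lt (mul_le_mul_of_nonneg_right ?_ (sq_nonneg _)) p6'
      linarith)
    (fun ξ => by unfold nu; positivity) (NUS Λ G hΛ1 (fun x => (hb x).2.1)) hFo
  exact ⟨ξ, hξ, hν⟩

end Pool.Agent.Helper13.FR
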