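import Pool.Agent.Helper13.FR.Inp
import Pool.Agent.Helper13.FR.PRI
import Pool.Agent.Helper37.FR.BOH
import Pool.Agent.Helper4.FR.CEN
import Pool.Agent.Helper4.FR.TOW
import Pool.Agent.Helper41.FR.ERR
import Pool.Agent.Helper41.FR.PIG
import Pool.Agent.Helper46.FR.NCT
import Pool.Agent.Helper46.FR.TSC
import Pool.Agent.Helper7.FR.STR
import Pool.Agent.Helper15.FR.UNF
import Pool.Agent.Helper61.FR.FPA
import Pool.Agent.Helper67.FR.FTR
import Pool.Agent.Helper68.FR.VEC
import Pool.Agent.Helper78.FR.FIV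
import Pool.Agent.Helper85.FR.UNI

/-!
Assembly of the FR modules.
-/

set_option autoImplicit false

namespace Pool.Agent.Helper13.FR

open Pool.Agent.Helper16.MD

theorem all_PRI : ST_PRI :=
  st_PRI in_KAT in_WND st_SHF st_EXV in_FOU in_RIC st_AUT st_NUS st_CNC st_NCP st_PAR

theorem all_BOH : ST_BOH := st_BOH st_FIV st_FPA st_FTR st_PIG st_NUS

theorem all_STR : ST_STR := st_STR in_WMZ st_BLK

theorem all_TSC : ST_TSC := st_TSC all_PRI all_BOH all_STR st_ERR

theorem all_UNI : ST_UNI := st_UNI all_TSC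

theorem all_UNF : ST_UNF := st_UNF all_UNI

theorem all_VEC : ST_VEC := st_VEC all_UNF

theorem all_NCT : ST_NCT := st_NCT all_VEC st_CEN st_TOW

end Pool.Agent.Helper13.FR
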