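import Pool.Agent.Helper13.FR.WMZ
import Pool.Agent.Helper13.MD.BTD
import Pool.Agent.Helper13.MD.WND
import Pool.Agent.Helper18.MD.EST
import Pool.Agent.Helper18.MD.NCP
import Pool.Agent.Helper24.MD.CNC
import Pool.Agent.Helper25.MD.PAR
import Pool.Agent.Helper30.MD.RED
import Pool.Agent.Helper35.MD.SHF
import Pool.Agent.Helper37.MD.KAT
import Pool.Agent.Helper38.MD.BIL
import Pool.Agent.Helper38.MD.ESC
import Pool.Agent.Helper38.MD.HOC
import Pool.Agent.Helper38.MD.HOL
import Pool.Agent.Helper38.MD.KMX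
import Pool.Agent.Helper38.SO.BH
import Pool.Agent.Helper38.SO.Bon
import Pool.Agent.Helper38.SO.SAP
import Pool.Agent.Helper38.SO.Sieve
import Pool.Agent.Helper40.MR.All
import Pool.Agent.Helper41.MD.ENY
import Pool.Agent.Helper41.MD.ESB
import Pool.Agent.Helper42.MD.BLK
import Pool.Agent.Helper47.MD.TOT
import Pool.Agent.Helper49.MD.TKB
import Pool.Agent.Helper57.MD.TAL
import Pool.Agent.Helper58.MD.AUT
import Pool.Agent.Helper61.MD.TKA
import Pool.Agent.Helper61.SO.MER
import Pool.Agent.Helper63.MD.PRA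
import Pool.Agent.Helper67.MD.DIL
import Pool.Agent.Helper67.MD.ENA
import Pool.Agent.Helper67.MD.EXV
import Pool.Agent.Helper67.MD.FEJ
import Pool.Agent.Helper67.MD.NUS
import Pool.Agent.Helper72.MD.ESA
import Pool.Agent.Helper77.MD.FOU
import Pool.Agent.Helper81.SO.Crtc
import Pool.Agent.Helper94.MD.ENX
import Pool.Agent.Helper94.MD.RIC

/-!
The inputs of the FR modules: the theorems of the MD project (helper16 and crew), the sieve and
Mertens (helper17 and crew), Matomaki-Radziwill (helper40 and crew).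
-/

set_option autoImplicit false

namespace Pool.Agent.Helper13.FR

open Pool.Agent.Helper16.MD

theorem in_SAP : Pool.Agent.Helper17.SO.ST_SAP :=
  Pool.Agent.Helper17.SO.st_SAP (Pool.Agent.Helper17.SO.st_SIEVE (Pool.Agent.Helper17.SO.st_BH
    Pool.Agent.Helper17.SO.st_BONA Pool.Agent.Helper17.SO.st_CRTC) Pool.Agent.Helper17.SO.st_MER)

theorem in_KAT : ST_KAT := st_KAT (st_TKB st_TKA)

theorem in_WND : ST_WND := st_WND Pool.Agent.Helper17.SO.st_MER

theorem in_FOU : ST_FOU := st_FOU st_DIL st_TAL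

theorem in_HOL : ST_HOL := st_HOL st_BIL

theorem in_ESA : ST_ESA := st_ESA (st_BTD in_SAP Pool.Agent.Helper17.SO.st_MER) st_TOT st_BIL

theorem in_ESB : ST_ESB := st_ESB st_BIL in_HOL st_ENA st_ENX st_KMX

theorem in_ESC : ST_ESC := st_ESC in_HOL st_HOC st_ENX st_ENY st_KMX st_LMX

theorem in_EST : ST_EST := st_EST in_ESA in_ESB in_ESC

theorem in_RIC : ST_RIC := st_RIC in_EST st_FEJ st_RED

theorem in_WMZ : ST_WMZ := st_WMZ Pool.Agent.Helper40.MR.all_NT

end Pool.Agent.Helper13.FR
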