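import Pool.Agent.Helper16.MD.Stmts

/-!
The two-scale theorem and Moebius disjointness of C*-systems with towers of bounded rank:
statements of the modules (MP_7a8f48_an). Every module proves one `ST_X` from the earlier ones,
which are hypotheses of its theorem.
-/

set_option autoImplicit false

open Finset Filter
open scoped ComplexConjugate

namespace Pool.Agent.Helper13.FR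

open Pool.Agent.Helper16.MD (ee MS FF nu)

/-! ## Definitions -/

/-- Fourier coefficient of a `Λ`-periodic function -/
noncomputable def gh (Λ : ℕ) (G : ℕ → ℂ) (ξ : ℕ) : ℂ :=
  (∑ s ∈ range Λ, G s * ee (-((ξ : ℝ) * s) / Λ)) / (Λ : ℂ)

/-- the block sums of `μ φ G` -/
noncomputable def BS (n Λ a : ℕ) (φ G : ℕ → ℂ) (N : ℕ) : ℝ :=
  ∑ t ∈ range (N + a + 1), ‖∑ x ∈ (Icc 1 N).filter (fun x => (x + a) / (n * Λ) = t),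
    ((ArithmeticFunction.moebius x : ℤ) : ℂ) * (φ x * G ((x + a) / n))‖

/-! ## Block A: the two-scale theorem -/

/-- PRI: the main proposition with a frequency `ξ / Λ`. -/
def ST_PRI : Prop := ∀ η : ℝ, 0 < η → η ≤ 1 → ∃ c : ℝ, 0 < c ∧ ∃ n₀ : ℕ, ∀ n : ℕ, n₀ ≤ n →
  ∃ Λ₀ : ℕ, ∀ (Λ a : ℕ) (φ G ω : ℕ → ℂ), Λ₀ ≤ Λ →
  (∀ x, ‖φ x‖ ≤ 1 ∧ ‖G x‖ ≤ 1 ∧ ‖ω x‖ ≤ 1) → (∀ x, φ (x + n) = φ x) →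
  (∀ x, G (x + Λ) = G x) → (∃ᶠ N : ℕ in atTop, η * N ≤ ‖MS (FF n Λ a φ G ω) N‖) →
  ∃ ξ ∈ range Λ, c ≤ nu Λ G ξ

/-- FIV: Fourier inversion. -/
def ST_FIV : Prop := ∀ (Λ : ℕ) (G : ℕ → ℂ), 1 ≤ Λ → (∀ x, G (x + Λ) = G x) → ∀ x : ℕ,
  G x = ∑ ξ ∈ range Λ, gh Λ G ξ * ee ((ξ : ℝ) * x / Λ)

/-- FPA: Parseval. -/
def ST_FPA : Prop := ∀ (Λ : ℕ) (b : ℕ → ℂ), 1 ≤ Λ →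
  ∑ x ∈ range Λ, ‖∑ ξ ∈ range Λ, b ξ * ee ((ξ : ℝ) * x / Λ)‖ ^ 2 =
    Λ * ∑ ξ ∈ range Λ, ‖b ξ‖ ^ 2

/-- FTR: the Fourier coefficients of a translate. -/
def ST_FTR : Prop := ∀ (Λ : ℕ) (G : ℕ → ℂ) (h ξ : ℕ), 1 ≤ Λ → (∀ x, G (x + Λ) = G x) →
  gh Λ (fun x => G (x + h)) ξ = ee ((ξ : ℝ) * h / Λ) * gh Λ G ξ

/-- PIG: pigeonhole. -/
def ST_PIG : Prop := ∀ (Λ M : ℕ) (S : Finset ℕ), 1 ≤ Λ → 1 ≤ M → ∃ C ⊆ range Λ,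
  Λ ≤ M ^ S.card * C.card ∧ ∀ ξ ∈ S, ∀ s ∈ C, ∀ t ∈ C,
    ‖ee ((ξ : ℝ) * s / Λ) - ee ((ξ : ℝ) * t / Λ)‖ ≤ 7 / M

/-- BOH: decomposition of a periodic function. -/
def ST_BOH : Prop := ∀ c ε : ℝ, 0 < c → 0 < ε → ∃ K : ℕ, ∀ (Λ : ℕ) (G : ℕ → ℂ), 1 ≤ Λ →
  (∀ x, ‖G x‖ ≤ 1) → (∀ x, G (x + Λ) = G x) →
  ∃ (U E : ℕ → ℂ) (S : Finset ℕ) (b : ℕ → ℂ), S ⊆ range Λ ∧ S.card ≤ K ∧ (∀ ξ, ‖b ξ‖ ≤ 1) ∧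
    (∀ x, G x = U x + E x + ∑ ξ ∈ S, b ξ * ee ((ξ : ℝ) * x / Λ)) ∧
    (∀ x, U (x + Λ) = U x) ∧ (∀ x, E (x + Λ) = E x) ∧ (∀ x, ‖U x‖ ≤ 2) ∧
    ∑ x ∈ range Λ, ‖E x‖ ^ 2 ≤ ε * Λ ∧ ∀ ξ ∈ range Λ, nu Λ U ξ < c

/-- WMZ: the theorem of Matomaki and Radziwill with a weight which is periodic up to a
unimodular factor. -/
def ST_WMZ : Prop := ∀ (q : ℕ) (δ : ℝ), 1 ≤ q → 0 < δ → ∃ L N₀ : ℕ, 1 ≤ L ∧ ∀ (N : ℕ)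
  (c : ℕ → ℂ) (z : ℂ), N₀ ≤ N → (∀ n, ‖c n‖ ≤ 1) → ‖z‖ = 1 → (∀ n, c (n + q) = z * c n) →
  ∑ m ∈ range N, ‖∑ j ∈ range L, ((ArithmeticFunction.moebius (m + j) : ℤ) : ℂ) * c (m + j)‖ ≤
    δ * L * N

/-- STR: the structured part. -/
def ST_STR : Prop := ∀ (n : ℕ) (δ : ℝ), 1 ≤ n → 0 < δ → ∃ Λ₀ : ℕ, ∀ (Λ a : ℕ) (φ ω : ℕ → ℂ)
  (θ : ℝ), Λ₀ ≤ Λ → (∀ x, ‖φ x‖ ≤ 1 ∧ ‖ω x‖ ≤ 1) → (∀ x, φ (x + n) = φ x) →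
  ∀ᶠ N : ℕ in atTop, ‖MS (FF n Λ a φ (fun s => ee (θ * s)) ω) N‖ ≤ δ * N

/-- ERR: the part which is small in mean square. -/
def ST_ERR : Prop := ∀ (n Λ a N : ℕ) (φ E ω : ℕ → ℂ) (ε : ℝ), 1 ≤ n → 1 ≤ Λ → 0 ≤ ε →
  (∀ x, ‖φ x‖ ≤ 1 ∧ ‖ω x‖ ≤ 1) → (∀ x, E (x + Λ) = E x) →
  ∑ x ∈ range Λ, ‖E x‖ ^ 2 ≤ ε * Λ →
  ‖MS (FF n Λ a φ E ω) N‖ ≤ ((N : ℝ) + 2 * n * Λ) * Real.sqrt ε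

/-- TSC: the two-scale theorem. -/
def ST_TSC : Prop := ∀ η : ℝ, 0 < η → ∃ n₀ : ℕ, ∀ n : ℕ, n₀ ≤ n → ∃ Λ₀ : ℕ,
  ∀ (Λ a : ℕ) (φ G ω : ℕ → ℂ), Λ₀ ≤ Λ → (∀ x, ‖φ x‖ ≤ 1 ∧ ‖G x‖ ≤ 1 ∧ ‖ω x‖ ≤ 1) →
  (∀ x, φ (x + n) = φ x) → (∀ x, G (x + Λ) = G x) →
  ∀ᶠ N : ℕ in atTop, ‖MS (FF n Λ a φ G ω) N‖ ≤ η * N

/-- UNI: the two-scale theorem, sums over the blocks. -/
def ST_UNI : Prop := ∀ η : ℝ, 0 < η → ∃ n₀ : ℕ, ∀ n : ℕ, n₀ ≤ n → ∃ Λ₀ : ℕ,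
  ∀ (Λ a : ℕ) (φ G : ℕ → ℂ), Λ₀ ≤ Λ → (∀ x, ‖φ x‖ ≤ 1 ∧ ‖G x‖ ≤ 1) →
  (∀ x, φ (x + n) = φ x) → (∀ x, G (x + Λ) = G x) →
  ∀ᶠ N : ℕ in atTop, BS n Λ a φ G N ≤ η * N

/-- UNF: the two-scale theorem, sums over the blocks, uniform version. -/
def ST_UNF : Prop := ∀ η : ℝ, 0 < η → ∃ n₀ : ℕ, ∀ n : ℕ, n₀ ≤ n → ∃ Λ₀ : ℕ, ∀ Λ : ℕ, Λ₀ ≤ Λ →
  ∃ N₀ : ℕ, ∀ (N a : ℕ) (φ G : ℕ → ℂ), N₀ ≤ N → (∀ x, ‖φ x‖ ≤ 1 ∧ ‖G x‖ ≤ 1) →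
  (∀ x, φ (x + n) = φ x) → (∀ x, G (x + Λ) = G x) → BS n Λ a φ G N ≤ η * N

/-! ## Block B: Banach spaces -/

/-- VEC: sums of products with values in a normed space. -/
def ST_VEC : Prop := ∀ (D : ℕ) (η : ℝ), 0 < η → ∃ n₀ : ℕ, ∀ n : ℕ, n₀ ≤ n → ∃ Λ₀ : ℕ,
  ∀ Λ : ℕ, Λ₀ ≤ Λ → ∃ N₀ : ℕ, ∀ (N a : ℕ) (φ G : ℕ → ℕ → ℂ), N₀ ≤ N →
  (∀ i x, ‖φ i x‖ ≤ 1 ∧ ‖G i x‖ ≤ 1) →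
  (∀ i x, φ i (x + n) = φ i x) → (∀ i x, G i (x + Λ) = G i x) →
  ∀ (F : Type) [NormedAddCommGroup F] [NormedSpace ℂ F] (ω : ℕ → ℕ → F) (B : ℝ),
  (∀ i t, ‖ω i t‖ ≤ B) →
  ‖∑ x ∈ Icc 1 N, ((ArithmeticFunction.moebius x : ℤ) : ℂ) • ∑ i ∈ range D,
    (φ i x * G i ((x + a) / n)) • ω i ((x + a) / (n * Λ))‖ ≤ η * B * N

/-- CEN: central projections with sum one. -/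
def ST_CEN : Prop := ∀ (A : Type) [CStarAlgebra A] (H : ℕ) (q : ℕ → A) (y : A) (M : ℝ),
  (∀ a ∈ range H, ∀ u : A, q a * u = u * q a) → (∀ a ∈ range H, star (q a) = q a) →
  (∀ a ∈ range H, q a * q a = q a) → ∑ a ∈ range H, q a = 1 → 0 ≤ M →
  (∀ a ∈ range H, ‖q a * y‖ ≤ M) → ‖y‖ ≤ M

/-- TOW: the orbit in a tower. -/
def ST_TOW : Prop := ∀ (A : Type) [CStarAlgebra A] (α : A →⋆ₐ[ℂ] A) (n Λ d : ℕ) (p q u : A)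
  (z : ℂ) (ε : ℝ) (S S' : Finset ℕ), 1 ≤ n → 1 ≤ Λ → q * p = q → (α ^ n) p = p →
  (α ^ (n * Λ)) q = q → ‖q‖ ≤ 1 → ‖z‖ = 1 → S ⊆ range n → S' ⊆ range (n * Λ) → S.card ≤ d →
  S'.card ≤ d → (∀ i ∈ range n, ∃ s ∈ S, ‖p * (α ^ i) u - p * (α ^ s) u‖ ≤ ε) →
  (∀ i ∈ range (n * Λ), ∃ s ∈ S', ‖q * (α ^ i) u - q * (α ^ s) u‖ ≤ ε) →
  ∃ (φ G : ℕ → ℕ → ℂ) (ω : ℕ → ℕ → ℕ → A), (∀ i x, ‖φ i x‖ ≤ 1 ∧ ‖G i x‖ ≤ 1) ∧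
    (∀ i x, φ i (x + n) = φ i x) ∧ (∀ i x, G i (x + Λ) = G i x) ∧
    (∀ i r t, ‖ω i r t‖ ≤ ‖u‖) ∧
    ∀ r x, r < n * Λ → r ≤ x → ‖z ^ x • ((α ^ r) q * (α ^ x) u) -
      ∑ i ∈ range (d * d), (φ i (x + (n * Λ - r)) * G i ((x + (n * Λ - r)) / n)) •
        ω i r ((x + (n * Λ - r)) / (n * Λ))‖ ≤ 2 * ε

/-- NCT: the theorem. -/
def ST_NCT : Prop := ∀ (A : Type) [CStarAlgebra A] (α : A →⋆ₐ[ℂ] A) (m : ℕ → ℕ) (p : ℕ → A)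
  (u : A), (∀ k, 1 ≤ m k) → StrictMono m → (∀ k, m k ∣ m (k + 1)) →
  (∀ k i (v : A), (α ^ i) (p k) * v = v * (α ^ i) (p k)) → (∀ k, star (p k) = p k) →
  (∀ k, p k * p k = p k) → (∀ k, p (k + 1) * p k = p (k + 1)) →
  (∀ k, (α ^ (m k)) (p k) = p k) → (∀ k, ∑ i ∈ range (m k), (α ^ i) (p k) = 1) →
  (∀ ε : ℝ, 0 < ε → ∃ d : ℕ, ∃ᶠ k : ℕ in atTop, ∃ S ⊆ range (m k), S.card ≤ d ∧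
    ∀ i ∈ range (m k), ∃ s ∈ S, ‖p k * (α ^ i) u - p k * (α ^ s) u‖ ≤ ε) →
  ∀ ε : ℝ, 0 < ε → ∃ N₀ : ℕ, ∀ (N : ℕ) (z : ℂ), N₀ ≤ N → ‖z‖ = 1 →
    ‖∑ x ∈ Icc 1 N, (((ArithmeticFunction.moebius x : ℤ) : ℂ) * z ^ x) • (α ^ x) u‖ ≤ ε * N

end Pool.Agent.Helper13.FR
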